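import Mathlib

/-!
# Polar coordinates: annuli and circles
-/

set_option autoImplicit false
open Set Filter Topology Metric MeasureTheory
open scoped ENNReal

namespace Pool.Agent.T2H09.DH

/-- the integral over an annulus and the integrals over circles -/
lemma annulus_ge {F : ℂ → ℂ} (hF : Measurable F) {R' R A : ℝ} (h0 : 0 ≤ R') (h1 : R' ≤ R)
    (hc : ∀ ρ ∈ Ioo R' R, ENNReal.ofReal A ≤
      ∫⁻ θ in Ioo (-Real.pi) Real.pi, ENNReal.ofReal ρ * ‖F (Complex.polarCoord.symm (ρ, θ))‖ₑ) :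
    ENNReal.ofReal (A * (R - R')) ≤ ∫⁻ w in closedBall (0 : ℂ) R \ closedBall 0 R', ‖F w‖ₑ := by
  have hS : MeasurableSet (closedBall (0 : ℂ) R \ closedBall 0 R') :=
    measurableSet_closedBall.diff measurableSet_closedBall
  set G : ℂ → ℝ≥0∞ := fun w => (closedBall (0 : ℂ) R \ closedBall 0 R').indicator
    (fun w => ‖F w‖ₑ) w with hG
  have e1 : ∫⁻ w in closedBall (0 : ℂ) R \ closedBall 0 R', ‖F w‖ₑ = ∫⁻ w, G w :=
    (lintegral_indicator hS _).symm
  rw [e1, ← Complex.lintegral_comp_polarCoord_symm G]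
  have hsub : Ioo R' R ×ˢ Ioo (-Real.pi) Real.pi ⊆ polarCoord.target := by
    rintro ⟨ρ, θ⟩ ⟨hρ, hθ⟩
    rw [polarCoord_target]
    exact ⟨lt_of_le_of_lt h0 hρ.1, hθ⟩
  refine le_trans ?_ (lintegral_mono_set hsub)
  have hm : Measurable fun p : ℝ × ℝ => ENNReal.ofReal p.1 * ‖F (Complex.polarCoord.symm p)‖ₑ := by
    have h2 : Measurable fun p : ℝ × ℝ => Complex.polarCoord.symm p := by
      have : (fun p : ℝ × ℝ => Complex.polarCoord.symm p) =
          fun p : ℝ × ℝ => (p.1 : ℂ) * (Real.cos p.2 + Real.sin p.2 * Complex.I) := by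
        funext p
        exact Complex.polarCoord_symm_apply p
      rw [this]
      fun_prop
    exact (ENNReal.measurable_ofReal.comp measurable_fst).mul (hF.comp h2).enorm
  have e2 : ∫⁻ p in Ioo R' R ×ˢ Ioo (-Real.pi) Real.pi,
      ENNReal.ofReal p.1 • G (Complex.polarCoord.symm p) =
      ∫⁻ p in Ioo R' R ×ˢ Ioo (-Real.pi) Real.pi,
        ENNReal.ofReal p.1 * ‖F (Complex.polarCoord.symm p)‖ₑ := by
    apply setLIntegral_congr_fun (measurableSet_Ioo.prod measurableSet_Ioo)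
    rintro ⟨ρ, θ⟩ ⟨hρ, hθ⟩
    have h3 : ‖Complex.polarCoord.symm (ρ, θ)‖ = ρ := by
      rw [Complex.norm_polarCoord_symm]
      exact abs_of_nonneg (h0.trans hρ.1.le)
    have h4 : Complex.polarCoord.symm (ρ, θ) ∈ closedBall (0 : ℂ) R \ closedBall 0 R' := by
      refine ⟨?_, ?_⟩
      · rw [mem_closedBall_zero_iff, h3]
        exact hρ.2.le
      · rw [mem_closedBall_zero_iff, h3, not_le]
        exact hρ.1
    simp only [smul_eq_mul, hG]
    rw [indicator_of_mem h4]
  rw [e2, Measure.volume_eq_prod, setLIntegral_prod _ hm.aemeasurable]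
  calc ENNReal.ofReal (A * (R - R')) = ∫⁻ _ρ in Ioo R' R, ENNReal.ofReal A := by
        rw [setLIntegral_const, Real.volume_Ioo, ENNReal.ofReal_mul' (by linarith)]
    _ ≤ _ := by
        apply setLIntegral_mono' measurableSet_Ioo
        intro ρ hρ
        exact hc ρ hρ

/-- the norm of a circle integral -/
lemma enorm_circle_le {F : ℂ → ℂ} {ρ : ℝ} (hρ : 0 < ρ) :
    ‖∮ z in C(0, ρ), F z‖ₑ ≤
      ∫⁻ θ in Ioo (-Real.pi) Real.pi, ENNReal.ofReal ρ * ‖F (Complex.polarCoord.symm (ρ, θ))‖ₑ := by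
  have hcm : ∀ θ : ℝ, circleMap 0 ρ θ = Complex.polarCoord.symm (ρ, θ) := by
    intro θ
    rw [Complex.polarCoord_symm_apply, circleMap_zero, Complex.exp_mul_I]
    push_cast
    ring
  have h1 : ∮ z in C(0, ρ), F z = ∫ θ in (-Real.pi)..Real.pi,
      deriv (circleMap 0 ρ) θ • F (circleMap 0 ρ θ) := by
    unfold circleIntegral
    have hper : Function.Periodic (fun θ => deriv (circleMap 0 ρ) θ • F (circleMap 0 ρ θ))
        (2 * Real.pi) := by
      intro θ
      simp only [deriv_circleMap, periodic_circleMap 0 ρ θ]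
    have h2 := hper.intervalIntegral_add_eq 0 (-Real.pi)
    rw [zero_add, show -Real.pi + 2 * Real.pi = Real.pi by ring] at h2
    exact h2
  rw [h1, intervalIntegral.integral_of_le (by linarith [Real.pi_pos]), integral_Ioc_eq_integral_Ioo]
  refine (enorm_integral_le_lintegral_enorm _).trans ?_
  apply lintegral_mono
  intro θ
  simp only
  rw [deriv_circleMap, smul_eq_mul, enorm_mul, enorm_mul, hcm θ]
  have h3 : ‖Complex.polarCoord.symm (ρ, θ)‖ₑ = ENNReal.ofReal ρ := by
    rw [← ofReal_norm, Complex.norm_polarCoord_symm, abs_of_pos hρ]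
  have h4 : ‖Complex.I‖ₑ = 1 := by
    rw [← ofReal_norm, Complex.norm_I, ENNReal.ofReal_one]
  rw [h3, h4, mul_one]

/-- the integral of `1 / |w - a|` over a ball centred at `a` -/
lemma int_inv (a : ℂ) {ρ : ℝ} (hρ : 0 ≤ ρ) :
    ∫⁻ w in ball a ρ, ENNReal.ofReal (‖w - a‖⁻¹) = ENNReal.ofReal (2 * Real.pi * ρ) := by
  have e0 : ∫⁻ w in ball a ρ, ENNReal.ofReal (‖w - a‖⁻¹) =
      ∫⁻ w, (ball (0 : ℂ) ρ).indicator (fun w => ENNReal.ofReal (‖w‖⁻¹)) w := by
    rw [← lintegral_indicator measurableSet_ball,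
      ← lintegral_sub_right_eq_self
        (fun w => (ball (0 : ℂ) ρ).indicator (fun w => ENNReal.ofReal (‖w‖⁻¹)) w) a]
    apply lintegral_congr
    intro w
    by_cases hw : w ∈ ball a ρ
    · have hw' : w - a ∈ ball (0 : ℂ) ρ := by
        rw [mem_ball_zero_iff]
        rwa [mem_ball, dist_eq_norm] at hw
      rw [indicator_of_mem hw, indicator_of_mem hw']
    · have hw' : w - a ∉ ball (0 : ℂ) ρ := by
        rw [mem_ball_zero_iff]
        rwa [mem_ball, dist_eq_norm] at hw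
      rw [indicator_of_notMem hw, indicator_of_notMem hw']
  rw [e0, ← Complex.lintegral_comp_polarCoord_symm]
  have e1 : ∀ p ∈ polarCoord.target, ENNReal.ofReal p.1 •
      (ball (0 : ℂ) ρ).indicator (fun w => ENNReal.ofReal (‖w‖⁻¹)) (Complex.polarCoord.symm p) =
      (Ioo 0 ρ ×ˢ Ioo (-Real.pi) Real.pi).indicator (fun _ => (1 : ℝ≥0∞)) p := by
    rintro ⟨r, θ⟩ hp
    rw [polarCoord_target] at hp
    obtain ⟨hr, hθ⟩ := hp
    simp only [mem_Ioi] at hr
    have h3 : ‖Complex.polarCoord.symm (r, θ)‖ = r := by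
      rw [Complex.norm_polarCoord_symm]
      exact abs_of_pos hr
    by_cases h : r < ρ
    · rw [indicator_of_mem, indicator_of_mem, h3, smul_eq_mul, ← ENNReal.ofReal_mul hr.le,
        mul_inv_cancel₀ hr.ne', ENNReal.ofReal_one]
      · exact ⟨⟨hr, h⟩, hθ⟩
      · rw [mem_ball_zero_iff, h3]
        exact h
    · rw [indicator_of_notMem, indicator_of_notMem, smul_zero]
      · rintro ⟨⟨_, h'⟩, _⟩
        exact h h'
      · rw [mem_ball_zero_iff, h3]
        exact h
  rw [setLIntegral_congr_fun polarCoord.open_target.measurableSet e1]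
  have hsub : Ioo 0 ρ ×ˢ Ioo (-Real.pi) Real.pi ⊆ polarCoord.target := by
    rintro ⟨r, θ⟩ ⟨hr, hθ⟩
    rw [polarCoord_target]
    exact ⟨hr.1, hθ⟩
  rw [setLIntegral_indicator (measurableSet_Ioo.prod measurableSet_Ioo),
    inter_eq_left.mpr hsub, setLIntegral_const, one_mul, Measure.volume_eq_prod,
    Measure.prod_prod, Real.volume_Ioo, Real.volume_Ioo, ← ENNReal.ofReal_mul (by linarith)]
  congr 1
  ring

end Pool.Agent.T2H09.DH
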