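import Pool.Agent.T2H09.DH.Core
import Pool.Agent.TH363.QI.Par
import Pool.Agent.H713R2.AR.HB
import Pool.Agent.W746.LD.Final
import Pool.Prelude.Def_F_c31e40fa

/-!
# The distance to the parameters with an attracting cycle
-/

set_option autoImplicit false
open Set Filter Topology Metric Polynomial

namespace Pool.Agent.T2H09.DH

open Pool.Agent.W746.LD N62a1eb23

/-- The parameters with an attracting cycle. -/
def Hy (n : ℕ) : Set ℂ := {c | ∃ m z, IsAttractingCycle (fun z => z ^ n + c) m z}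

lemma zero_mem_Hy {n : ℕ} (hn : 2 ≤ n) : (0 : ℂ) ∈ Hy n := by
  by_contra hcon
  have h := Pool.Agent.H713R2.AR.P_ne_zero hn (c := 0) hcon (n := 1) le_rfl
  apply h
  rw [Pool.Agent.H712R2.P_one hn]

lemma norm_le_two {n : ℕ} (hn : 2 ≤ n) {c : ℂ} (hc : c ∈ multibrotSet n) : ‖c‖ ≤ 2 := by
  have := mem_multibrot_orb hn hc 0
  rwa [orb_zero] at this

lemma infDist_le_two {n : ℕ} (hn : 2 ≤ n) {c : ℂ} (hc : c ∈ multibrotSet n) :
    infDist c (Hy n) ≤ 2 := by
  refine (infDist_le_dist_of_mem (zero_mem_Hy hn)).trans ?_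
  rw [dist_zero_right]
  exact norm_le_two hn hc

lemma D_eq' {n : ℕ} {c : ℂ} (j : ℕ) (h : P n c c j ≠ 0) :
    TH363.QI.D n c j = P n c c j * S n c c (j + 1) := by
  induction j with
  | zero => rw [TH363.QI.D_zero, P_zero, S_one, one_mul]
  | succ j ih =>
    have h1 : P n c c j ≠ 0 := by
      intro h0
      apply h
      rw [P_succ, h0, zero_mul]
    rw [TH363.QI.D_succ, ih h1, S_succ _ (j + 1), mul_add, mul_inv_cancel₀ h, P_succ]
    ring

/-- Far from the parameters with an attracting cycle the orbit avoids `0` and the derivative with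
respect to the parameter is small. -/
lemma far {n : ℕ} (hn : 2 ≤ n) {c : ℂ} (hc : c ∈ multibrotSet n) (h : 0 < infDist c (Hy n)) :
    (∀ j, orb n c c j ≠ 0) ∧ ∀ j, infDist c (Hy n) * ‖TH363.QI.D n c j‖ ≤ 2 := by
  set r := infDist c (Hy n) with hr
  have hball : ∀ c' ∈ ball c r, ¬ ∃ m z, IsAttractingCycle (fun z => z ^ n + c') m z := by
    intro c' hc' hcon
    have h1 : infDist c (Hy n) ≤ dist c c' := infDist_le_dist_of_mem hcon
    rw [mem_ball, dist_comm] at hc'
    linarith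
  have hsub : ball c r ⊆ multibrotSet n := Pool.Agent.H713R2.AR.ball_subset hn h hc hball
  refine ⟨?_, ?_⟩
  · intro j h0
    have h1 := Pool.Agent.H713R2.AR.P_ne_zero hn (hball c (mem_ball_self h)) (n := j + 1) (by omega)
    apply h1
    rw [P_eq_orb hn]
    exact h0
  · intro j
    have hd := (TH363.QI.hasDerivAt_D n c j).deriv
    rw [← hd]
    have key : ∀ s : ℝ, 0 < s → s < r → s * ‖deriv (fun t => orb n t t j) c‖ ≤ 2 := by
      intro s hs hsr
      have h2 : ‖deriv (fun t => orb n t t j) c‖ ≤ 2 / s := by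
        apply Complex.norm_deriv_le_of_forall_mem_sphere_norm_le hs
        · exact (diff_param (n := n) j).diffContOnCl
        · intro z hz
          apply mem_multibrot_orb hn
          apply hsub
          rw [mem_ball]
          rw [mem_sphere] at hz
          linarith
      rw [le_div_iff₀ hs] at h2
      linarith
    by_contra hcon
    push Not at hcon
    have hpos : 0 < ‖deriv (fun t => orb n t t j) c‖ := by
      by_contra h3
      have h4 : ‖deriv (fun t => orb n t t j) c‖ = 0 := le_antisymm (not_lt.mp h3) (norm_nonneg _)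
      rw [h4, mul_zero] at hcon
      linarith
    obtain ⟨s, hs1, hs2⟩ := exists_between (show 2 / ‖deriv (fun t => orb n t t j) c‖ < r by
      rw [div_lt_iff₀ hpos]; exact hcon)
    have hs0 : 0 < s := lt_trans (by positivity) hs1
    have h5 := key s hs0 hs2
    rw [div_lt_iff₀ hpos] at hs1
    linarith

/-- The general inequality. -/
theorem gen {n : ℕ} (hn : 2 ≤ n) {c : ℂ} (hc : c ∈ multibrotSet n) (N : ℕ) {R R' X : ℝ}
    (hR : R' < R) (hmap : ∀ z : ℂ, ‖z ^ n + c‖ ≤ R → ‖z‖ ≤ R') (horb : ∀ j, ‖orb n c c j‖ ≤ R')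
    (hX : ∀ j, ‖orb n c c j‖ + R < X) {T : ℂ → ℂ} (hT : Differentiable ℂ T) {M : ℝ}
    (hM : ∀ z : ℂ, ‖z‖ ≤ R → ‖T z‖ ≤ M) :
    infDist c (Hy n) * ‖P n c c N‖ * ‖∑ j ∈ Finset.range N, T (orb n c c j) / P n c c j‖ *
      (R - R') ≤ 4 * M * X := by
  have hR'0 : 0 ≤ R' := (norm_nonneg _).trans (horb 0)
  have hM0 : 0 ≤ M := (norm_nonneg _).trans (hM 0 (by rw [norm_zero]; linarith))
  have hX0 : 0 < X := by
    have := hX 0
    have h2 : 0 ≤ ‖orb n c c 0‖ := norm_nonneg _
    linarith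
  rcases (infDist_nonneg (x := c) (s := Hy n)).eq_or_lt with h0 | h0
  · rw [← h0, zero_mul, zero_mul, zero_mul]
    positivity
  · obtain ⟨h1, h2⟩ := far hn hc h0
    have hP : ∀ j, P n c c j ≠ 0 := fun j => P_ne_zero hn fun i _ => h1 i
    have h3 := core (N := N) hn (fun j _ => h1 j) hR hmap horb hX hT hM
    set W := ‖∑ j ∈ Finset.range N, T (orb n c c j) / P n c c j‖ with hW
    set r := infDist c (Hy n) with hr
    have hPN : 0 < ‖P n c c N‖ := norm_pos_iff.mpr (hP N)
    have h4 : ‖P n c c N‖ * (‖(P n c c N)⁻¹‖ + ‖S n c c (N + 1)‖) =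
        1 + ‖TH363.QI.D n c N‖ := by
      rw [D_eq' N (hP N), norm_mul, norm_inv]
      field_simp
    have h5 := h2 N
    have h6 : r ≤ 2 := infDist_le_two hn hc
    calc r * ‖P n c c N‖ * W * (R - R') = r * ‖P n c c N‖ * (W * (R - R')) := by ring
      _ ≤ r * ‖P n c c N‖ * (M * X * (‖(P n c c N)⁻¹‖ + ‖S n c c (N + 1)‖)) := by gcongr
      _ = M * X * (r * (‖P n c c N‖ * (‖(P n c c N)⁻¹‖ + ‖S n c c (N + 1)‖))) := by ring
      _ = M * X * (r + r * ‖TH363.QI.D n c N‖) := by rw [h4]; ring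
      _ ≤ M * X * (2 + 2) := by gcongr
      _ = 4 * M * X := by ring

/-- The inequality with the disc of radius `3`. -/
theorem ineq {n : ℕ} (hn : 2 ≤ n) {c : ℂ} (hc : c ∈ multibrotSet n) (N : ℕ)
    {T : ℂ → ℂ} (hT : Differentiable ℂ T) {M : ℝ} (hM : ∀ z : ℂ, ‖z‖ ≤ 3 → ‖T z‖ ≤ M) :
    infDist c (Hy n) * ‖P n c c N‖ * ‖∑ j ∈ Finset.range N, T (orb n c c j) / P n c c j‖ ≤
      40 * M := by
  have hM0 : 0 ≤ M := (norm_nonneg _).trans (hM 0 (by rw [norm_zero]; norm_num))
  have horb := mem_multibrot_orb hn hc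
  have hc2 := norm_le_two hn hc
  have key : ∀ X : ℝ, 5 < X → infDist c (Hy n) * ‖P n c c N‖ *
      ‖∑ j ∈ Finset.range N, T (orb n c c j) / P n c c j‖ ≤ 8 * M * X := by
    intro X hX
    have h1 := gen hn hc N (R := 3) (R' := 5 / 2) (X := X) (by norm_num) ?_
      (fun j => (horb j).trans (by norm_num)) (fun j => by have := horb j; linarith) hT hM
    · have h2 : (3 : ℝ) - 5 / 2 = 1 / 2 := by norm_num
      rw [h2] at h1
      linarith
    · intro z hz
      by_contra hcon
      push Not at hcon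
      have h3 : ‖z‖ ^ n ≤ 3 + 2 := by
        have h4 : z ^ n = (z ^ n + c) - c := by ring
        rw [← norm_pow, h4]
        exact (norm_sub_le _ _).trans (add_le_add hz hc2)
      have h5 : (5 / 2 : ℝ) ^ 2 ≤ ‖z‖ ^ n :=
        calc (5 / 2 : ℝ) ^ 2 ≤ (5 / 2) ^ n := pow_le_pow_right₀ (by norm_num) hn
          _ ≤ ‖z‖ ^ n := pow_le_pow_left₀ (by norm_num) hcon.le n
      norm_num at h5
      linarith
  by_contra hcon
  push Not at hcon
  rcases hM0.eq_or_lt with h0 | h0
  · have := key 6 (by norm_num)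
    rw [← h0] at this hcon
    linarith
  · obtain ⟨X, hX1, hX2⟩ := exists_between (show 5 < (infDist c (Hy n) * ‖P n c c N‖ *
      ‖∑ j ∈ Finset.range N, T (orb n c c j) / P n c c j‖) / (8 * M) by
        rw [lt_div_iff₀ (by positivity)]; linarith)
    have h1 := key X hX1
    rw [lt_div_iff₀ (by positivity)] at hX2
    linarith

end Pool.Agent.T2H09.DH
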