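import Pool.Agent.T2H09.DH.Mass

/-!
# The weighted sums of the inverse derivatives
-/

set_option autoImplicit false
open Set Filter Topology Metric MeasureTheory Polynomial
open scoped ENNReal

namespace Pool.Agent.T2H09.DH

open Pool.Agent.W746.LD

/-- Cauchy's formula for the quadratic differential. -/
lemma circle_qd {n : ℕ} {c : ℂ} {N : ℕ} {T : ℂ → ℂ} (hT : Differentiable ℂ T) {ρ : ℝ}
    (hρ : ∀ j, ‖orb n c c j‖ < ρ) :
    ∮ z in C(0, ρ), T z * qd n c N z =
      2 * Real.pi * Complex.I * ∑ j ∈ Finset.range N, T (orb n c c j) / P n c c j := by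
  have hρ0 : 0 < ρ := (norm_nonneg _).trans_lt (hρ 0)
  have h1 : ∀ z : ℂ, T z * qd n c N z =
      ∑ j ∈ Finset.range N, (P n c c j)⁻¹ * ((z - orb n c c j)⁻¹ • T z) := by
    intro z
    unfold qd
    rw [Finset.mul_sum]
    refine Finset.sum_congr rfl fun j _ => ?_
    rw [smul_eq_mul, div_eq_mul_inv]
    ring
  simp only [h1]
  have hint : ∀ j ∈ Finset.range N, CircleIntegrable
      (fun z => (P n c c j)⁻¹ * ((z - orb n c c j)⁻¹ • T z)) 0 ρ := by
    intro j _
    apply ContinuousOn.circleIntegrable hρ0.le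
    simp only [smul_eq_mul]
    refine ContinuousOn.fun_mul continuousOn_const
      (ContinuousOn.fun_mul ?_ hT.continuous.continuousOn)
    refine ContinuousOn.inv₀ (f := fun z : ℂ => z - orb n c c j)
      (ContinuousOn.fun_sub continuousOn_id continuousOn_const) ?_
    intro z hz h
    rw [mem_sphere_zero_iff_norm] at hz
    have h2 : z = orb n c c j := sub_eq_zero.mp h
    have h3 := hρ j
    rw [← h2, hz] at h3
    exact lt_irrefl _ h3
  rw [circleIntegral.integral_fun_sum hint, Finset.mul_sum]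
  refine Finset.sum_congr rfl fun j _ => ?_
  rw [circleIntegral.integral_const_mul,
    (hT.diffContOnCl (s := ball (0 : ℂ) ρ)).circleIntegral_sub_inv_smul
      (by rw [mem_ball_zero_iff]; exact hρ j), smul_eq_mul, div_eq_mul_inv]
  ring

/-- The weighted sums of the inverse derivatives against the last two terms. -/
theorem core {n : ℕ} (hn : 2 ≤ n) {c : ℂ} {N : ℕ} (h0 : ∀ j < N, orb n c c j ≠ 0) {R R' X : ℝ}
    (hR : R' < R) (hmap : ∀ z : ℂ, ‖z ^ n + c‖ ≤ R → ‖z‖ ≤ R') (horb : ∀ j, ‖orb n c c j‖ ≤ R')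
    (hX : ∀ j, ‖orb n c c j‖ + R < X) {T : ℂ → ℂ} (hT : Differentiable ℂ T) {M : ℝ}
    (hM : ∀ z : ℂ, ‖z‖ ≤ R → ‖T z‖ ≤ M) :
    ‖∑ j ∈ Finset.range N, T (orb n c c j) / P n c c j‖ * (R - R') ≤
      M * X * (‖(P n c c N)⁻¹‖ + ‖S n c c (N + 1)‖) := by
  have hR'0 : 0 ≤ R' := (norm_nonneg _).trans (horb 0)
  have hR0 : 0 < R := by linarith
  have hX0 : 0 < X := by
    have := hX 0
    have h2 : 0 ≤ ‖orb n c c 0‖ := norm_nonneg _
    linarith
  have hM0 : 0 ≤ M := (norm_nonneg _).trans (hM 0 (by rw [norm_zero]; exact hR0.le))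
  set W := ∑ j ∈ Finset.range N, T (orb n c c j) / P n c c j with hW
  set B := ‖(P n c c N)⁻¹‖ + ‖S n c c (N + 1)‖ with hB
  have hB0 : 0 ≤ B := by positivity
  have hmass := mass (N := N) hn h0 hR0.le hR.le hmap hX
  rw [← hB] at hmass
  have hFm : Measurable fun z => T z * qd n c N z :=
    hT.continuous.measurable.mul (measurable_qd n c N)
  have h1 := annulus_ge (F := fun z => T z * qd n c N z) hFm (A := 2 * Real.pi * ‖W‖) hR'0 hR.le
    (by
      intro ρ hρ
      have hρ0 : 0 < ρ := lt_of_le_of_lt hR'0 hρ.1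
      have h2 := enorm_circle_le (F := fun z => T z * qd n c N z) hρ0
      rw [circle_qd hT (fun j => (horb j).trans_lt hρ.1)] at h2
      refine le_trans (le_of_eq ?_) h2
      rw [← hW, ← ofReal_norm, norm_mul]
      congr 1
      rw [norm_mul, norm_mul, Complex.norm_I, mul_one, Complex.norm_real, Complex.norm_ofNat,
        Real.norm_eq_abs, abs_of_pos Real.pi_pos])
  have h2 : ∫⁻ w in closedBall (0 : ℂ) R \ closedBall 0 R', ‖T w * qd n c N w‖ₑ ≤
      ENNReal.ofReal M * ∫⁻ w in closedBall (0 : ℂ) R \ closedBall 0 R', ‖qd n c N w‖ₑ := by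
    rw [← lintegral_const_mul' _ _ ENNReal.ofReal_ne_top]
    apply setLIntegral_mono' (measurableSet_closedBall.diff measurableSet_closedBall)
    intro w hw
    rw [enorm_mul, ← ofReal_norm]
    gcongr
    exact hM w (by have := hw.1; rwa [mem_closedBall_zero_iff] at this)
  have h3 : ENNReal.ofReal (2 * Real.pi * ‖W‖ * (R - R')) ≤
      ENNReal.ofReal (M * (2 * Real.pi * X * B)) := by
    refine h1.trans (h2.trans ?_)
    rw [ENNReal.ofReal_mul hM0]
    gcongr
  rw [ENNReal.ofReal_le_ofReal_iff (by positivity)] at h3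
  have h4 : 2 * Real.pi * (‖W‖ * (R - R')) ≤ 2 * Real.pi * (M * X * B) := by
    calc 2 * Real.pi * (‖W‖ * (R - R')) = 2 * Real.pi * ‖W‖ * (R - R') := by ring
      _ ≤ M * (2 * Real.pi * X * B) := h3
      _ = _ := by ring
  exact le_of_mul_le_mul_left h4 (by positivity)

end Pool.Agent.T2H09.DH
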