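import Pool.Agent.T2H09.DH.Push
import Pool.Agent.T2H09.DH.Polar
import Pool.Agent.H713R5.QJ.TAF

/-!
# The mass of the quadratic differential outside the preimage of a disc
-/

set_option autoImplicit false
open Set Filter Topology Metric MeasureTheory Polynomial
open scoped ENNReal

namespace Pool.Agent.T2H09.DH

open Pool.Agent.W746.LD

lemma measurable_qd (n : ℕ) (c : ℂ) (N : ℕ) : Measurable (qd n c N) := by
  unfold qd
  apply Finset.measurable_fun_sum
  intro j _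
  exact measurable_const.div (measurable_id.sub_const _)

/-- contraction in `L¹` -/
lemma contr {n : ℕ} (hn : 2 ≤ n) (c : ℂ) {q : ℂ → ℂ} (hq : Measurable q) {E : Set ℂ}
    (hE : MeasurableSet E) :
    ∫⁻ w in E, ‖∑ ζ ∈ (Tp n c - C w).roots.toFinset, q ζ / (n * ζ ^ (n - 1)) ^ 2‖ₑ ≤
      ∫⁻ z in {z | z ^ n + c ∈ E}, ‖q z‖ₑ := by
  have hg : Measurable fun ζ : ℂ => ‖q ζ / (n * ζ ^ (n - 1)) ^ 2‖ₑ := by
    refine (hq.div ?_).enorm
    fun_prop
  have h1 := Pool.Agent.H713R5.QJ.af_holds (Tp n c) (fun ζ => ‖q ζ / (n * ζ ^ (n - 1)) ^ 2‖ₑ) E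
    (by rw [natDegree_Tp hn]; omega) hg hE
  calc ∫⁻ w in E, ‖∑ ζ ∈ (Tp n c - C w).roots.toFinset, q ζ / (n * ζ ^ (n - 1)) ^ 2‖ₑ
      ≤ ∫⁻ w in E, ∑ ζ ∈ (Tp n c - C w).roots.toFinset, ‖q ζ / (n * ζ ^ (n - 1)) ^ 2‖ₑ :=
        lintegral_mono fun w => enorm_sum_le _ _
    _ = ∫⁻ z in (Pool.Agent.H713R5.QJ.ev (Tp n c)) ⁻¹' E, ‖q z / (n * z ^ (n - 1)) ^ 2‖ₑ *
          ENNReal.ofReal (‖(derivative (Tp n c)).eval z‖ ^ 2) := h1
    _ ≤ ∫⁻ z in (Pool.Agent.H713R5.QJ.ev (Tp n c)) ⁻¹' E, ‖q z‖ₑ := by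
        apply lintegral_mono
        intro z
        simp only
        rw [eval_der_Tp]
        by_cases h : (n : ℂ) * z ^ (n - 1) = 0
        · rw [h]
          simp
        · rw [← ofReal_norm, ← ofReal_norm, ← ENNReal.ofReal_mul (norm_nonneg _), norm_div, norm_pow]
          apply ENNReal.ofReal_le_ofReal
          have h2 : ‖(n : ℂ) * z ^ (n - 1)‖ ≠ 0 := by rwa [norm_ne_zero_iff]
          rw [div_mul_cancel₀ _ (pow_ne_zero 2 h2)]
    _ = _ := by
        have e : (Pool.Agent.H713R5.QJ.ev (Tp n c)) ⁻¹' E = {z | z ^ n + c ∈ E} := by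
          ext z
          change (Tp n c).eval z ∈ E ↔ _
          rw [eval_Tp]
          rfl
        rw [e]

lemma int_inv_closed {a : ℂ} {R X : ℝ} (ha : ‖a‖ + R < X) :
    ∫⁻ w in closedBall (0 : ℂ) R, ENNReal.ofReal (‖w - a‖⁻¹) ≤
      ENNReal.ofReal (2 * Real.pi * X) := by
  rcases le_or_gt 0 X with hX | hX
  · rw [← int_inv a hX]
    apply lintegral_mono_set
    intro w hw
    rw [mem_closedBall_zero_iff] at hw
    rw [mem_ball, dist_eq_norm]
    exact (norm_sub_le _ _).trans_lt (by linarith)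
  · have : closedBall (0 : ℂ) R = ∅ := by
      apply closedBall_eq_empty.mpr
      have := norm_nonneg a
      linarith
    rw [this]
    simp

lemma int_term_le (b a : ℂ) {R X : ℝ} (ha : ‖a‖ + R < X) :
    ∫⁻ w in closedBall (0 : ℂ) R, ‖b / (w - a)‖ₑ ≤
      ENNReal.ofReal (2 * Real.pi * X * ‖b‖) := by
  have h1 : ∀ w : ℂ, ‖b / (w - a)‖ₑ = ENNReal.ofReal ‖b‖ * ENNReal.ofReal (‖w - a‖⁻¹) := by
    intro w
    rw [← ofReal_norm, norm_div, div_eq_mul_inv, ENNReal.ofReal_mul (norm_nonneg _)]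
  simp only [h1]
  rw [lintegral_const_mul' _ _ ENNReal.ofReal_ne_top]
  refine (mul_le_mul_right (int_inv_closed ha) _).trans ?_
  rw [← ENNReal.ofReal_mul (norm_nonneg _), mul_comm]

/-- the mass of `qd` on an annulus -/
theorem mass {n : ℕ} (hn : 2 ≤ n) {c : ℂ} {N : ℕ} (h0 : ∀ j < N, orb n c c j ≠ 0) {R R' X : ℝ}
    (hR0 : 0 ≤ R) (hR : R' ≤ R) (hmap : ∀ z : ℂ, ‖z ^ n + c‖ ≤ R → ‖z‖ ≤ R') (hX : ∀ j, ‖orb n c c j‖ + R < X) :
    ∫⁻ w in closedBall (0 : ℂ) R \ closedBall 0 R', ‖qd n c N w‖ₑ ≤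
      ENNReal.ofReal (2 * Real.pi * X * (‖(P n c c N)⁻¹‖ + ‖S n c c (N + 1)‖)) := by
  set E : Set ℂ := closedBall 0 R with hE
  have hEm : MeasurableSet E := measurableSet_closedBall
  have hqm := measurable_qd n c N
  have hX0 : 0 ≤ X := by
    have := hX 0
    have h2 : 0 ≤ ‖orb n c c 0‖ := norm_nonneg _
    linarith
  -- finiteness
  have hfin : ∫⁻ w in E, ‖qd n c N w‖ₑ ≠ ⊤ := by
    have h1 : ∫⁻ w in E, ‖qd n c N w‖ₑ ≤
        ∑ j ∈ Finset.range N, ENNReal.ofReal (2 * Real.pi * X * ‖(P n c c j)⁻¹‖) := by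
      calc ∫⁻ w in E, ‖qd n c N w‖ₑ
          ≤ ∫⁻ w in E, ∑ j ∈ Finset.range N, ‖(P n c c j)⁻¹ / (w - orb n c c j)‖ₑ :=
            lintegral_mono fun w => enorm_sum_le _ _
        _ = ∑ j ∈ Finset.range N, ∫⁻ w in E, ‖(P n c c j)⁻¹ / (w - orb n c c j)‖ₑ := by
            apply lintegral_finsetSum'
            intro j _
            exact (measurable_const.div (measurable_id.sub_const _)).enorm.aemeasurable
        _ ≤ _ := Finset.sum_le_sum fun j _ => int_term_le _ _ (hX j)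
    refine ne_top_of_le_ne_top ?_ h1
    exact (ENNReal.sum_lt_top.mpr fun j _ => ENNReal.ofReal_lt_top).ne
  -- the orbit is a null set
  have hae : ∀ᵐ w : ℂ, ∀ j, w ≠ orb n c c j := by
    rw [ae_all_iff]
    intro j
    rw [ae_iff]
    simp
  have her : ∫⁻ w in E, ‖er n c N w‖ₑ ≤
      ENNReal.ofReal (2 * Real.pi * X * (‖(P n c c N)⁻¹‖ + ‖S n c c (N + 1)‖)) := by
    calc ∫⁻ w in E, ‖er n c N w‖ₑ
        ≤ ∫⁻ w in E, (‖(P n c c N)⁻¹ / (w - orb n c c N)‖ₑ + ‖S n c c (N + 1) / (w - c)‖ₑ) := by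
          apply lintegral_mono
          intro w
          unfold er
          exact enorm_sub_le
      _ = (∫⁻ w in E, ‖(P n c c N)⁻¹ / (w - orb n c c N)‖ₑ) +
          ∫⁻ w in E, ‖S n c c (N + 1) / (w - c)‖ₑ := by
          apply lintegral_add_left
          exact (measurable_const.div (measurable_id.sub_const _)).enorm
      _ ≤ ENNReal.ofReal (2 * Real.pi * X * ‖(P n c c N)⁻¹‖) +
          ENNReal.ofReal (2 * Real.pi * X * ‖S n c c (N + 1)‖) :=
          add_le_add (int_term_le _ _ (hX N)) (int_term_le _ _ (hX 0))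
      _ = _ := by
          rw [← ENNReal.ofReal_add (by positivity) (by positivity)]
          congr 1
          ring
  have key : ∫⁻ w in E, ‖qd n c N w‖ₑ ≤ (∫⁻ w in closedBall (0 : ℂ) R', ‖qd n c N w‖ₑ) +
      ENNReal.ofReal (2 * Real.pi * X * (‖(P n c c N)⁻¹‖ + ‖S n c c (N + 1)‖)) := by
    calc ∫⁻ w in E, ‖qd n c N w‖ₑ
        ≤ ∫⁻ w in E, (‖∑ ζ ∈ (Tp n c - C w).roots.toFinset,
            qd n c N ζ / (n * ζ ^ (n - 1)) ^ 2‖ₑ + ‖er n c N w‖ₑ) := by
          apply lintegral_mono_ae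
          apply ae_restrict_of_ae
          filter_upwards [hae] with w hw
          rw [push_qd hn h0 (hw 0) (fun j _ => hw (j + 1))]
          have h2 : qd n c N w = (qd n c N w + er n c N w) - er n c N w := by ring
          calc ‖qd n c N w‖ₑ = ‖(qd n c N w + er n c N w) - er n c N w‖ₑ := by rw [← h2]
            _ ≤ _ := enorm_sub_le
      _ = (∫⁻ w in E, ‖∑ ζ ∈ (Tp n c - C w).roots.toFinset,
            qd n c N ζ / (n * ζ ^ (n - 1)) ^ 2‖ₑ) + ∫⁻ w in E, ‖er n c N w‖ₑ := by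
          apply lintegral_add_right
          unfold er
          exact ((measurable_const.div (measurable_id.sub_const _)).sub
            (measurable_const.div (measurable_id.sub_const _))).enorm
      _ ≤ _ := by
          refine add_le_add ((contr hn c hqm hEm).trans ?_) her
          apply lintegral_mono_set
          intro z hz
          rw [mem_closedBall_zero_iff]
          apply hmap
          have hz' : z ^ n + c ∈ E := hz
          rwa [hE, mem_closedBall_zero_iff] at hz'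
  have hsub : closedBall (0 : ℂ) R' ⊆ E := closedBall_subset_closedBall hR
  have h3 : (∫⁻ w in closedBall (0 : ℂ) R', ‖qd n c N w‖ₑ) +
      ∫⁻ w in E \ closedBall 0 R', ‖qd n c N w‖ₑ ≤
      (∫⁻ w in closedBall (0 : ℂ) R', ‖qd n c N w‖ₑ) +
        ENNReal.ofReal (2 * Real.pi * X * (‖(P n c c N)⁻¹‖ + ‖S n c c (N + 1)‖)) := by
    have h4 := lintegral_inter_add_sdiff (μ := volume) (fun w => ‖qd n c N w‖ₑ) E
      (measurableSet_closedBall (x := (0 : ℂ)) (ε := R'))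
    rw [inter_eq_right.mpr hsub] at h4
    rw [h4]
    exact key
  refine ENNReal.le_of_add_le_add_left ?_ h3
  exact ne_top_of_le_ne_top hfin (lintegral_mono_set hsub)

end Pool.Agent.T2H09.DH
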