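import Pool.Agent.T2H09.DH.Final

/-!
# The power inequality
-/

set_option autoImplicit false
open Set Filter Topology Metric Polynomial

namespace Pool.Agent.T2H09.DH

open Pool.Agent.W746.LD N62a1eb23

/-- The polynomial which is `1` at `c` and vanishes at the next points of the orbit. -/
noncomputable def TT (n : ℕ) (c : ℂ) (N : ℕ) (z : ℂ) : ℂ :=
  ∏ j ∈ Finset.range N, (z - orb n c c (j + 1)) / (c - orb n c c (j + 1))

lemma differentiable_TT (n : ℕ) (c : ℂ) (N : ℕ) : Differentiable ℂ (TT n c N) := by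
  unfold TT
  fun_prop

lemma norm_c_sub (n : ℕ) (c : ℂ) (j : ℕ) : ‖c - orb n c c (j + 1)‖ = ‖orb n c c j‖ ^ n := by
  rw [norm_sub_rev, norm_orb_succ_sub]

lemma TT_self {n : ℕ} {c : ℂ} (h : ∀ j, orb n c c j ≠ 0) (N : ℕ) : TT n c N c = 1 := by
  unfold TT
  apply Finset.prod_eq_one
  intro j _
  apply div_self
  rw [← norm_pos_iff, norm_c_sub]
  exact pow_pos (norm_pos_iff.mpr (h j)) _

lemma TT_zero {n : ℕ} {c : ℂ} {N j : ℕ} (hj : j < N) : TT n c N (orb n c c (j + 1)) = 0 := by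
  unfold TT
  apply Finset.prod_eq_zero (Finset.mem_range.mpr hj)
  rw [sub_self, zero_div]

lemma norm_TT_le {n : ℕ} {c : ℂ} {ρ R : ℝ} (hρ : ∀ j, ‖orb n c c j‖ ≤ ρ) (N : ℕ) {z : ℂ}
    (hz : ‖z‖ ≤ R) : ‖TT n c N z‖ ≤ (R + ρ) ^ N / (∏ j ∈ Finset.range N, ‖orb n c c j‖) ^ n := by
  unfold TT
  rw [norm_prod, ← Finset.prod_pow, ← Finset.card_range N, ← Finset.prod_const, Finset.card_range,
    ← Finset.prod_div_distrib]
  apply Finset.prod_le_prod
  · intro j _; positivity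
  · intro j _
    rw [norm_div, norm_c_sub]
    gcongr
    exact (norm_sub_le _ _).trans (add_le_add hz (hρ _))

lemma sum_TT {n : ℕ} {c : ℂ} (h : ∀ j, orb n c c j ≠ 0) (N : ℕ) :
    ∑ j ∈ Finset.range (N + 1), TT n c N (orb n c c j) / P n c c j = 1 := by
  rw [Finset.sum_range_succ', orb_zero, P_zero, TT_self h, div_one, Finset.sum_eq_zero, zero_add]
  intro j hj
  rw [TT_zero (Finset.mem_range.mp hj), zero_div]

lemma norm_P (n : ℕ) (c : ℂ) (N : ℕ) :
    ‖P n c c N‖ = (n : ℝ) ^ N * (∏ j ∈ Finset.range N, ‖orb n c c j‖) ^ (n - 1) := by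
  unfold P
  rw [norm_prod]
  simp only [norm_mul, norm_pow, Complex.norm_natCast]
  rw [Finset.prod_mul_distrib, Finset.prod_const, Finset.card_range, Finset.prod_pow]

/-- The escape radius. -/
lemma exists_rho {n : ℕ} (hn : 2 ≤ n) : ∃ ρ : ℝ, 0 < ρ ∧ ρ ^ (n - 1) = 2 := by
  refine ⟨(2 : ℝ) ^ ((n - 1 : ℕ) : ℝ)⁻¹, by positivity, ?_⟩
  rw [Real.rpow_inv_natCast_pow (by norm_num) (by omega)]

lemma orb_le_rho {n : ℕ} (hn : 2 ≤ n) {c : ℂ} (hc : c ∈ multibrotSet n) {ρ : ℝ} (h0 : 0 < ρ)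
    (hρ : ρ ^ (n - 1) = 2) (j : ℕ) : ‖orb n c c j‖ ≤ ρ := by
  have h1 := orbit_bound hn (mem_multibrot_orb hn hc) j
  rw [← hρ] at h1
  exact (pow_le_pow_iff_left₀ (norm_nonneg _) h0.le (by omega)).mp h1

/-- The inequality for large radii. -/
theorem gen2 {n : ℕ} (hn : 2 ≤ n) {ρ R : ℝ} (h0 : 0 < ρ) (hρ : ρ ^ (n - 1) = 2) (hR : ρ < R) :
    ∃ K : ℝ, 0 < K ∧ ∀ c ∈ multibrotSet n, ∀ (N : ℕ) (T : ℂ → ℂ), Differentiable ℂ T →
      ∀ M : ℝ, (∀ z : ℂ, ‖z‖ ≤ R → ‖T z‖ ≤ M) →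
      infDist c (Hy n) * ‖P n c c N‖ * ‖∑ j ∈ Finset.range N, T (orb n c c j) / P n c c j‖ ≤
        K * M := by
  have hR0 : 0 < R := h0.trans hR
  set R' : ℝ := (R + ρ) ^ ((n : ℕ) : ℝ)⁻¹ with hR'
  have hR'0 : 0 ≤ R' := by positivity
  have hpow : R' ^ n = R + ρ := by
    rw [hR', Real.rpow_inv_natCast_pow (by positivity) (by omega)]
  have hpn : ∀ x : ℝ, x ^ n = x ^ (n - 1) * x := fun x => by
    rw [← pow_succ, Nat.sub_add_cancel (by omega)]
  have hR'R : R' < R := by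
    apply lt_of_pow_lt_pow_left₀ n hR0.le
    rw [hpow, hpn]
    have h1 : 2 ≤ R ^ (n - 1) := by
      rw [← hρ]
      exact pow_le_pow_left₀ h0.le hR.le _
    nlinarith
  have hρR' : ρ ≤ R' := by
    rw [← pow_le_pow_iff_left₀ h0.le hR'0 (show n ≠ 0 by omega), hpow, hpn, hρ]
    linarith
  refine ⟨4 * (R + ρ + 1) / (R - R'), by have : 0 < R - R' := by linarith
                                         positivity, ?_⟩
  intro c hc N T hT M hM
  have h1 := gen hn hc N (R := R) (R' := R') (X := R + ρ + 1) hR'R ?_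
    (fun j => (orb_le_rho hn hc h0 hρ j).trans hρR')
    (fun j => by have := orb_le_rho hn hc h0 hρ j; linarith) hT hM
  · have h2 : 0 < R - R' := by linarith
    rw [div_mul_eq_mul_div, le_div_iff₀ h2]
    linarith
  · intro z hz
    rw [← pow_le_pow_iff_left₀ (norm_nonneg _) hR'0 (show n ≠ 0 by omega), hpow, ← norm_pow]
    have h3 : z ^ n = (z ^ n + c) - c := by ring
    rw [h3]
    refine (norm_sub_le _ _).trans (add_le_add hz ?_)
    have := orb_le_rho hn hc h0 hρ 0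
    rwa [orb_zero] at this

/-- The power inequality. -/
theorem power {n : ℕ} (hn : 2 ≤ n) {ε : ℝ} (hε : 0 < ε) : ∃ C : ℝ, 0 < C ∧
    ∀ c ∈ multibrotSet n, ∀ N : ℕ,
      infDist c (Hy n) ^ (n - 1) * ‖P n c c N‖ ^ (2 * n - 1) ≤
        C * ((1 + ε) * (2 * n) ^ n) ^ N := by
  obtain ⟨ρ, h0, hρ⟩ := exists_rho hn
  have hn1 : (1 : ℝ) ≤ n := by exact_mod_cast (by omega : 1 ≤ n)
  have hcont : Continuous fun R : ℝ => (R + ρ) ^ (n - 1) := by fun_prop
  have hval : (ρ + ρ) ^ (n - 1) < (1 + ε) * 2 ^ n := by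
    have : (ρ + ρ) ^ (n - 1) = 2 ^ n := by
      rw [← two_mul, mul_pow, hρ, ← pow_succ, Nat.sub_add_cancel (by omega)]
    rw [this]
    have : (0 : ℝ) < 2 ^ n := by positivity
    nlinarith
  obtain ⟨R, hR1, hR2⟩ : ∃ R, ρ < R ∧ (R + ρ) ^ (n - 1) < (1 + ε) * 2 ^ n := by
    have h1 := (hcont.tendsto ρ).eventually (gt_mem_nhds hval)
    obtain ⟨δ, hδ, h2⟩ := Metric.eventually_nhds_iff.mp h1
    refine ⟨ρ + δ / 2, by linarith, h2 ?_⟩
    rw [Real.dist_eq, add_sub_cancel_left, abs_of_pos (by positivity)]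
    linarith
  obtain ⟨K, hK, h2⟩ := gen2 hn h0 hρ hR1
  have hA : (1 : ℝ) ≤ (1 + ε) * (2 * n) ^ n := by
    have h3 : (1 : ℝ) ≤ (2 * n) ^ n := one_le_pow₀ (by linarith)
    nlinarith
  refine ⟨2 ^ (n - 1) + (2 * n) ^ n * K ^ (n - 1), by positivity, ?_⟩
  intro c hc N
  have hr0 : 0 ≤ infDist c (Hy n) := infDist_nonneg
  rcases N with _ | N
  · rw [P_zero, norm_one, one_pow, mul_one, pow_zero, mul_one]
    have h3 : infDist c (Hy n) ^ (n - 1) ≤ 2 ^ (n - 1) :=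
      pow_le_pow_left₀ hr0 (infDist_le_two hn hc) _
    have h4 : 0 ≤ (2 * (n : ℝ)) ^ n * K ^ (n - 1) := by positivity
    linarith
  · rcases hr0.eq_or_lt with hr | hr
    · rw [← hr, zero_pow (by omega), zero_mul]
      positivity
    · obtain ⟨h1, -⟩ := far hn hc hr
      set r := infDist c (Hy n) with hrdef
      set p : ℝ := ∏ j ∈ Finset.range N, ‖orb n c c j‖ with hp
      have hp0 : 0 < p := Finset.prod_pos fun j _ => norm_pos_iff.mpr (h1 j)
      have h3 := h2 c hc (N + 1) (TT n c N) (differentiable_TT n c N) ((R + ρ) ^ N / p ^ n)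
        (fun z hz => norm_TT_le (orb_le_rho hn hc h0 hρ) N hz)
      rw [sum_TT h1, norm_one, mul_one] at h3
      set q : ℝ := ‖P n c c (N + 1)‖ with hq
      have hq0 : 0 ≤ q := norm_nonneg _
      -- the derivative at the previous step
      have h4 : q ≤ 2 * n * (n ^ N * p ^ (n - 1)) := by
        rw [hq, norm_P_succ, ← norm_P]
        have h5 := orbit_bound hn (mem_multibrot_orb hn hc) N
        calc ‖P n c c N‖ * (n * ‖orb n c c N‖ ^ (n - 1)) ≤ ‖P n c c N‖ * (n * 2) := by gcongr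
          _ = _ := by ring
      have hRρ : 0 < R + ρ := by linarith
      have h5 : r * q * p ^ n ≤ K * (R + ρ) ^ N := by
        rw [← mul_div_assoc, le_div_iff₀ (by positivity)] at h3
        exact h3
      have h6 : (r * q) ^ (n - 1) * (p ^ (n - 1)) ^ n ≤ K ^ (n - 1) * ((R + ρ) ^ (n - 1)) ^ N := by
        calc (r * q) ^ (n - 1) * (p ^ (n - 1)) ^ n = (r * q * p ^ n) ^ (n - 1) := by
              rw [mul_pow (r * q) (p ^ n), ← pow_mul, ← pow_mul, mul_comm (n - 1) n]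
          _ ≤ (K * (R + ρ) ^ N) ^ (n - 1) := by gcongr
          _ = _ := by rw [mul_pow, ← pow_mul, ← pow_mul, mul_comm N (n - 1)]
      have h7 : q ^ n ≤ (2 * n) ^ n * ((n : ℝ) ^ n) ^ N * (p ^ (n - 1)) ^ n := by
        calc q ^ n ≤ (2 * n * (n ^ N * p ^ (n - 1))) ^ n := by gcongr
          _ = _ := by
            rw [mul_pow (2 * (n : ℝ)), mul_pow ((n : ℝ) ^ N), ← pow_mul, ← pow_mul (n : ℝ) n N,
              mul_comm N n, mul_assoc]
      have h8 : r ^ (n - 1) * q ^ (2 * n - 1) = (r * q) ^ (n - 1) * q ^ n := by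
        rw [mul_pow, mul_assoc, ← pow_add]
        congr 2
        omega
      have h9 : ((R + ρ) ^ (n - 1)) ^ N ≤ ((1 + ε) * 2 ^ n) ^ N := by gcongr
      calc r ^ (n - 1) * q ^ (2 * n - 1) = (r * q) ^ (n - 1) * q ^ n := h8
        _ ≤ (r * q) ^ (n - 1) * ((2 * n) ^ n * ((n : ℝ) ^ n) ^ N * (p ^ (n - 1)) ^ n) := by gcongr
        _ = ((2 * n) ^ n * ((n : ℝ) ^ n) ^ N) * ((r * q) ^ (n - 1) * (p ^ (n - 1)) ^ n) := by ring
        _ ≤ ((2 * n) ^ n * ((n : ℝ) ^ n) ^ N) * (K ^ (n - 1) * ((R + ρ) ^ (n - 1)) ^ N) := by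
            gcongr
        _ ≤ ((2 * n) ^ n * ((n : ℝ) ^ n) ^ N) * (K ^ (n - 1) * ((1 + ε) * 2 ^ n) ^ N) := by
            gcongr
        _ = (2 * n) ^ n * K ^ (n - 1) * ((1 + ε) * (2 * n) ^ n) ^ N := by
            rw [show (1 + ε) * (2 * (n : ℝ)) ^ n = ((n : ℝ) ^ n) * ((1 + ε) * 2 ^ n) by
              rw [mul_pow]; ring, mul_pow ((n : ℝ) ^ n)]
            ring
        _ ≤ (2 ^ (n - 1) + (2 * n) ^ n * K ^ (n - 1)) * ((1 + ε) * (2 * n) ^ n) ^ (N + 1) := by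
            have e1 : (2 * (n : ℝ)) ^ n * K ^ (n - 1) ≤
                2 ^ (n - 1) + (2 * n) ^ n * K ^ (n - 1) := by
              have : (0 : ℝ) ≤ 2 ^ (n - 1) := by positivity
              linarith
            have e2 : ((1 + ε) * (2 * (n : ℝ)) ^ n) ^ N ≤ ((1 + ε) * (2 * n) ^ n) ^ (N + 1) :=
              pow_le_pow_right₀ hA (by omega)
            exact mul_le_mul e1 e2 (by positivity) (by positivity)

/-- The criterion. -/
theorem crit {n : ℕ} (hn : 2 ≤ n) {c : ℂ} (hc : c ∈ multibrotSet n) {χ : ℝ}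
    (hχ : n / (2 * n - 1) * Real.log (2 * n) < χ)
    (h : ∃ᶠ N : ℕ in atTop, Real.exp (χ * N) ≤ ‖P n c c N‖) : c ∈ closure (Hy n) := by
  have hn0 : (0 : ℝ) < n := by exact_mod_cast (by omega : 0 < n)
  have hn1 : (1 : ℝ) ≤ n := by exact_mod_cast (by omega : 1 ≤ n)
  have h2n : (0 : ℝ) < 2 * n - 1 := by linarith
  set δ : ℝ := (2 * n - 1) * χ - n * Real.log (2 * n) with hδ
  have hδ0 : 0 < δ := by
    rw [div_mul_eq_mul_div, div_lt_iff₀ h2n] at hχ
    rw [hδ]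
    linarith
  obtain ⟨C, hC, hC2⟩ := power hn (ε := Real.exp (δ / 2) - 1)
    (by have := Real.add_one_lt_exp (show δ / 2 ≠ 0 by positivity); linarith)
  have hne : (Hy n).Nonempty := ⟨0, zero_mem_Hy hn⟩
  rw [mem_closure_iff_infDist_zero hne]
  by_contra hcon
  have hr : 0 < infDist c (Hy n) := lt_of_le_of_ne infDist_nonneg (Ne.symm hcon)
  set r := infDist c (Hy n) with hrdef
  have hlim : Tendsto (fun N : ℕ => C * Real.exp (-(δ / 2) * N)) atTop (𝓝 0) := by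
    have h1 : Tendsto (fun N : ℕ => Real.exp (-(δ / 2) * N)) atTop (𝓝 0) := by
      apply Real.tendsto_exp_atBot.comp
      exact (tendsto_natCast_atTop_atTop).const_mul_atTop_of_neg (by linarith)
    have h2 := h1.const_mul C
    rwa [mul_zero] at h2
  have hev := hlim.eventually (gt_mem_nhds (pow_pos hr (n - 1)))
  obtain ⟨N, hN1, hN2⟩ := (h.and_eventually hev).exists
  have h1 := hC2 c hc N
  have h2 : Real.exp (χ * N) ^ (2 * n - 1) ≤ ‖P n c c N‖ ^ (2 * n - 1) := by gcongr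
  have h3 : ((1 + (Real.exp (δ / 2) - 1)) * (2 * (n : ℝ)) ^ n) ^ N =
      Real.exp ((δ / 2 + n * Real.log (2 * n)) * N) := by
    have e1 : (2 * (n : ℝ)) ^ n = Real.exp (n * Real.log (2 * n)) := by
      rw [Real.exp_nat_mul, Real.exp_log (by positivity)]
    rw [e1, add_sub_cancel, ← Real.exp_add, ← Real.exp_nat_mul]
    congr 1
    ring
  have h4 : Real.exp (χ * N) ^ (2 * n - 1) = Real.exp ((2 * n - 1) * χ * N) := by
    rw [← Real.exp_nat_mul]
    congr 1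
    rw [Nat.cast_sub (by omega)]
    push_cast
    ring
  rw [h3] at h1
  rw [h4] at h2
  have h5 : r ^ (n - 1) * Real.exp ((2 * n - 1) * χ * N) ≤
      C * Real.exp ((δ / 2 + n * Real.log (2 * n)) * N) := by
    refine le_trans ?_ h1
    gcongr
  have h6 : r ^ (n - 1) ≤ C * Real.exp (-(δ / 2) * N) := by
    have e1 : Real.exp ((δ / 2 + n * Real.log (2 * n)) * N) =
        Real.exp (-(δ / 2) * N) * Real.exp ((2 * n - 1) * χ * N) := by
      rw [← Real.exp_add]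
      congr 1
      rw [hδ]
      ring
    rw [e1, ← mul_assoc] at h5
    exact le_of_mul_le_mul_right h5 (Real.exp_pos _)
  linarith

end Pool.Agent.T2H09.DH
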