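import Mathlib
import Pool.Agent.W746.LD.Basic

/-!
# The push-forward of a quadratic differential with simple poles along the critical orbit
-/

set_option autoImplicit false
open Set Filter Topology Metric Finset Polynomial

namespace Pool.Agent.T2H09.DH

open Pool.Agent.W746.LD

/-- the polynomial `X ^ n + c` -/
noncomputable def Tp (n : ℕ) (c : ℂ) : ℂ[X] := X ^ n + C c

lemma eval_Tp (n : ℕ) (c z : ℂ) : (Tp n c).eval z = z ^ n + c := by simp [Tp]

lemma eval_der_Tp (n : ℕ) (c z : ℂ) : (derivative (Tp n c)).eval z = n * z ^ (n - 1) := by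
  simp [Tp, derivative_X_pow]

lemma natDegree_Tp {n : ℕ} (hn : 2 ≤ n) (c : ℂ) : (Tp n c).natDegree = n := by
  unfold Tp
  exact natDegree_X_pow_add_C

lemma Tp_sub (n : ℕ) (c w : ℂ) : Tp n c - C w = X ^ n - C (w - c) := by
  unfold Tp
  rw [C_sub]
  ring

lemma mem_roots_Tp {n : ℕ} (hn : 2 ≤ n) (c w ζ : ℂ) :
    ζ ∈ (Tp n c - C w).roots.toFinset ↔ ζ ^ n = w - c := by
  rw [Multiset.mem_toFinset, Tp_sub, mem_roots (X_pow_sub_C_ne_zero (by omega) _), IsRoot.def,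
    eval_sub, eval_pow, eval_X, eval_C, sub_eq_zero]

lemma sum_roots_Tp {n : ℕ} (hn : 2 ≤ n) {c w : ℂ} (hw : w ≠ c) (g : ℂ → ℂ) :
    ∑ ζ ∈ (Tp n c - C w).roots.toFinset, g ζ = ((X ^ n - C (w - c)).roots.map g).sum := by
  have hn0 : (n : ℂ) ≠ 0 := by exact_mod_cast (by omega : n ≠ 0)
  have hsep : (X ^ n - C (w - c)).Separable :=
    separable_X_pow_sub_C (w - c) hn0 (sub_ne_zero.mpr hw)
  have hnd : (X ^ n - C (w - c)).roots.Nodup := nodup_roots hsep
  rw [Tp_sub, Finset.sum_eq_multiset_sum, Multiset.toFinset_val, Multiset.dedup_eq_self.mpr hnd]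

/-- the sum of `ζ ^ 2 / (ζ - a)` over the roots of `ζ ^ n = u` -/
lemma sum_sq {n : ℕ} (hn : 2 ≤ n) {u a : ℂ} (ha : a ^ n ≠ u) :
    ((X ^ n - C u).roots.map fun ζ => ζ ^ 2 / (ζ - a)).sum = n * a * u / (u - a ^ n) := by
  have hmon : (X ^ n - C u).Monic := monic_X_pow_sub_C u (by omega)
  have hsp : (X ^ n - C u : ℂ[X]).Splits := IsAlgClosed.splits _
  have hdeg : (X ^ n - C u : ℂ[X]).natDegree = n := natDegree_X_pow_sub_C
  have hev : (X ^ n - C u).eval a = a ^ n - u := by simp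
  have hau : a ^ n - u ≠ 0 := sub_ne_zero.mpr ha
  have hev0 : (X ^ n - C u).eval a ≠ 0 := by rw [hev]; exact hau
  have h1 : ((X ^ n - C u).roots.map fun ζ => 1 / (a - ζ)).sum = n * a ^ (n - 1) / (a ^ n - u) := by
    rw [← hsp.eval_derivative_div_eval_of_ne_zero hev0, hev]
    simp [derivative_X_pow]
  have h2 : (X ^ n - C u : ℂ[X]).roots.sum = 0 := by
    have h3 := hsp.nextCoeff_eq_neg_sum_roots_of_monic hmon
    have h4 : (X ^ n - C u : ℂ[X]).nextCoeff = 0 := by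
      rw [nextCoeff_of_natDegree_pos (by omega), hdeg, coeff_sub, coeff_X_pow, coeff_C,
        if_neg (by omega), if_neg (by omega), sub_zero]
    rw [h4] at h3
    rw [← neg_eq_zero, ← h3]
  have h5 : Multiset.card (X ^ n - C u : ℂ[X]).roots = n := by
    rw [← hsp.natDegree_eq_card_roots, hdeg]
  have h6 : (X ^ n - C u).roots.map (fun ζ => ζ ^ 2 / (ζ - a)) =
      (X ^ n - C u).roots.map (fun ζ => (ζ + a) - a ^ 2 * (1 / (a - ζ))) := by
    apply Multiset.map_congr rfl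
    intro ζ hζ
    rw [mem_roots (X_pow_sub_C_ne_zero (by omega) _), IsRoot.def, eval_sub, eval_pow, eval_X, eval_C,
      sub_eq_zero] at hζ
    have h7 : ζ - a ≠ 0 := by
      intro h
      rw [sub_eq_zero] at h
      rw [h] at hζ
      exact ha hζ
    have h8 : a - ζ ≠ 0 := by
      intro h
      apply h7
      rw [← neg_sub, h, neg_zero]
    field_simp
    ring
  rw [h6, Multiset.sum_map_sub, Multiset.sum_map_add, Multiset.sum_map_mul_left, h1,
    Multiset.map_id', h2, Multiset.map_const', Multiset.sum_replicate, h5, nsmul_eq_mul, zero_add]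
  have hua : u - a ^ n ≠ 0 := by
    intro h
    apply hau
    rw [← neg_sub, h, neg_zero]
  have hp : a ^ (n - 1) * a = a ^ n := by
    rw [← pow_succ, Nat.sub_add_cancel (by omega)]
  rw [eq_div_iff hua]
  have h9 : (n : ℂ) * a ^ (n - 1) / (a ^ n - u) * (u - a ^ n) = - (n * a ^ (n - 1)) := by
    rw [div_mul_eq_mul_div, div_eq_iff hau]
    ring
  calc (↑n * a - a ^ 2 * (↑n * a ^ (n - 1) / (a ^ n - u))) * (u - a ^ n)
      = n * a * (u - a ^ n) - a ^ 2 * (↑n * a ^ (n - 1) / (a ^ n - u) * (u - a ^ n)) := by ring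
    _ = n * a * (u - a ^ n) + a * n * (a ^ (n - 1) * a) := by rw [h9]; ring
    _ = n * a * u := by rw [hp]; ring

/-- The push-forward of `dz ^ 2 / (z - a)`. -/
lemma push_one {n : ℕ} (hn : 2 ≤ n) {c w a : ℂ} (ha : a ≠ 0) (hw : w ≠ c) (hwa : w ≠ a ^ n + c) :
    ∑ ζ ∈ (Tp n c - C w).roots.toFinset, 1 / (ζ - a) / (n * ζ ^ (n - 1)) ^ 2 =
      (n * a ^ (n - 1))⁻¹ * (1 / (w - (a ^ n + c)) - 1 / (w - c)) := by
  have hn0 : (n : ℂ) ≠ 0 := by exact_mod_cast (by omega : n ≠ 0)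
  rw [sum_roots_Tp hn hw]
  set u := w - c with hu
  have hu0 : u ≠ 0 := sub_ne_zero.mpr hw
  have hau : a ^ n ≠ u := by
    intro h
    apply hwa
    rw [h, hu]
    ring
  have h1 : (X ^ n - C u).roots.map (fun ζ => 1 / (ζ - a) / (n * ζ ^ (n - 1)) ^ 2) =
      (X ^ n - C u).roots.map (fun ζ => 1 / (n ^ 2 * u ^ 2) * (ζ ^ 2 / (ζ - a))) := by
    apply Multiset.map_congr rfl
    intro ζ hζ
    rw [mem_roots (X_pow_sub_C_ne_zero (by omega) _), IsRoot.def, eval_sub, eval_pow, eval_X, eval_C,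
      sub_eq_zero] at hζ
    have hζ0 : ζ ≠ 0 := by
      rintro rfl
      rw [zero_pow (by omega)] at hζ
      exact hu0 hζ.symm
    have h7 : ζ - a ≠ 0 := by
      intro h
      rw [sub_eq_zero] at h
      rw [h] at hζ
      exact hau hζ
    have h8 : (n * ζ ^ (n - 1)) ^ 2 * ζ ^ 2 = (n : ℂ) ^ 2 * u ^ 2 := by
      rw [← hζ, ← mul_pow, mul_assoc, ← pow_succ, Nat.sub_add_cancel (by omega), mul_pow]
    have h9 : (n * ζ ^ (n - 1)) ^ 2 ≠ 0 :=
      pow_ne_zero _ (mul_ne_zero hn0 (pow_ne_zero _ hζ0))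
    rw [← h8]
    field_simp
  rw [h1, Multiset.sum_map_mul_left, sum_sq hn hau]
  have hua : u - a ^ n ≠ 0 := by
    intro h
    apply hau
    rw [sub_eq_zero] at h
    exact h.symm
  have e1 : w - (a ^ n + c) = u - a ^ n := by rw [hu]; ring
  rw [e1]
  have hp : a ^ (n - 1) * a = a ^ n := by
    rw [← pow_succ, Nat.sub_add_cancel (by omega)]
  have hap : a ^ (n - 1) ≠ 0 := pow_ne_zero _ ha
  rw [← hp] at hua ⊢
  have key : ∀ (N b a u : ℂ), N ≠ 0 → b ≠ 0 → u ≠ 0 → u - b * a ≠ 0 →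
      1 / (N ^ 2 * u ^ 2) * (N * a * u / (u - b * a)) = (N * b)⁻¹ * (1 / (u - b * a) - 1 / u) := by
    intro N b a u hN hb hu hv
    have h2 : 1 / (u - b * a) - 1 / u = b * a / ((u - b * a) * u) := by
      rw [div_sub_div _ _ hv hu]
      congr 1
      ring
    rw [h2]
    generalize u - b * a = v at hv
    field_simp
  exact key n (a ^ (n - 1)) a u hn0 hap hu0 hua

/-- the quadratic differential with the simple poles `z_j`, `j < N`, along the critical orbit -/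
noncomputable def qd (n : ℕ) (c : ℂ) (N : ℕ) (w : ℂ) : ℂ :=
  ∑ j ∈ range N, (P n c c j)⁻¹ / (w - orb n c c j)

/-- the error term -/
noncomputable def er (n : ℕ) (c : ℂ) (N : ℕ) (w : ℂ) : ℂ :=
  (P n c c N)⁻¹ / (w - orb n c c N) - S n c c (N + 1) / (w - c)

/-- The push-forward of `qd` is `qd` up to the error term. -/
lemma push_qd {n : ℕ} (hn : 2 ≤ n) {c w : ℂ} {N : ℕ} (h0 : ∀ j < N, orb n c c j ≠ 0)
    (hw : w ≠ c) (hwa : ∀ j < N, w ≠ orb n c c (j + 1)) :
    ∑ ζ ∈ (Tp n c - C w).roots.toFinset, qd n c N ζ / (n * ζ ^ (n - 1)) ^ 2 =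
      qd n c N w + er n c N w := by
  have h1 : ∀ ζ : ℂ, qd n c N ζ / (n * ζ ^ (n - 1)) ^ 2 =
      ∑ j ∈ range N, (P n c c j)⁻¹ * (1 / (ζ - orb n c c j) / (n * ζ ^ (n - 1)) ^ 2) := by
    intro ζ
    unfold qd
    rw [Finset.sum_div]
    refine Finset.sum_congr rfl fun j _ => ?_
    ring
  simp only [h1]
  rw [Finset.sum_comm]
  have h2 : ∀ j ∈ range N, ∑ ζ ∈ (Tp n c - C w).roots.toFinset,
      (P n c c j)⁻¹ * (1 / (ζ - orb n c c j) / (n * ζ ^ (n - 1)) ^ 2) =
      (P n c c (j + 1))⁻¹ / (w - orb n c c (j + 1)) - (P n c c (j + 1))⁻¹ / (w - c) := by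
    intro j hj
    rw [Finset.mem_range] at hj
    have h3 : w ≠ (orb n c c j) ^ n + c := by
      rw [← orb_succ]
      exact hwa j hj
    rw [← Finset.mul_sum, push_one hn (h0 j hj) hw h3, P_succ, mul_inv, orb_succ]
    ring
  rw [Finset.sum_congr rfl h2, Finset.sum_sub_distrib]
  have h4 : ∑ j ∈ range N, (P n c c (j + 1))⁻¹ / (w - orb n c c (j + 1)) =
      qd n c N w + (P n c c N)⁻¹ / (w - orb n c c N) - 1 / (w - c) := by
    have h5 := Finset.sum_range_succ' (fun j => (P n c c j)⁻¹ / (w - orb n c c j)) N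
    have h6 := Finset.sum_range_succ (fun j => (P n c c j)⁻¹ / (w - orb n c c j)) N
    rw [h5, P_zero, inv_one, orb_zero] at h6
    unfold qd
    rw [← h6]
    ring
  have h7 : ∑ j ∈ range N, (P n c c (j + 1))⁻¹ / (w - c) = (S n c c (N + 1) - 1) / (w - c) := by
    rw [← Finset.sum_div]
    congr 1
    unfold S
    rw [Finset.sum_range_succ', P_zero, inv_one]
    ring
  rw [h4, h7]
  unfold er
  ring

end Pool.Agent.T2H09.DH
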